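import Pool.Agent.H48.UX.Hs

/-!
# [H48 UX HM] commutators in the Heisenberg group relative to a submodule

`U` a submodule of `V`, `S` the elements of `V` which are fixed modulo `U`. `M1 U x`: `x.b ∈ S` and `x.k = 0` on `U`. `M2 U x`: `x.b ∈ U` and `x.k = 0` on `S`.
* `m2_mul`, `m2_list`: `M2` is closed under products and the coordinate `z` is additive there.
* `com_m1`: the commutator of two elements `x`, `y` of `M1` is in `M2`, with `z = x.k y.b - y.k x.b`.
* `com_t`: the commutator of `(0, χ, 0) 1` and `y`, `χ` invariant under `y.g`.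
* `fix_top`: if `Q` is a `p`-group and `S = U`, then `U = V`.
-/

set_option autoImplicit false

open scoped commutatorElement

noncomputable section

namespace H48.UX

variable {p : ℕ} {V Q : Type} [AddCommGroup V] [Group Q] [DistribMulAction Q V]

/-- fixed modulo `U` -/
def Fu (Q : Type) [Group Q] [DistribMulAction Q V] (U : AddSubgroup V) (b : V) : Prop :=
  ∀ g : Q, g • b - b ∈ U

def M1 (U : AddSubgroup V) (x : Hs p V Q) : Prop := Fu Q U x.b ∧ ∀ u ∈ U, x.k u = 0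

def M2 (U : AddSubgroup V) (x : Hs p V Q) : Prop := x.b ∈ U ∧ ∀ b, Fu Q U b → x.k b = 0

theorem fx_smul {U : AddSubgroup V} {b : V} (h : Fu Q U b) (g : Q) : Fu Q U (g • b) := by
  intro g'
  have h1 := U.sub_mem (h (g' * g)) (h g)
  rw [mul_smul] at h1
  rwa [sub_sub_sub_cancel_right] at h1

theorem fx_add {U : AddSubgroup V} {b c : V} (h : Fu Q U b) (h' : Fu Q U c) : Fu Q U (b + c) := by
  intro g
  have h1 := U.add_mem (h g) (h' g)
  rw [smul_add]
  rwa [sub_add_sub_comm] at h1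

theorem fx_neg {U : AddSubgroup V} {b : V} (h : Fu Q U b) : Fu Q U (-b) := by
  intro g
  have h1 := U.neg_mem (h g)
  rw [smul_neg]
  have h2 : -(g • b) - -b = -(g • b - b) := by abel
  rwa [h2]

theorem fx_zero {U : AddSubgroup V} : Fu Q U (0 : V) := by
  intro g
  rw [smul_zero, sub_zero]
  exact U.zero_mem

theorem fx_of_mem {U : AddSubgroup V} (hU : ∀ g : Q, ∀ u ∈ U, g • u ∈ U) {u : V} (hu : u ∈ U) :
    Fu Q U u := fun g => U.sub_mem (hU g u hu) hu

theorem k_smul {U : AddSubgroup V} {k : V →+ ZMod p} (hk : ∀ u ∈ U, k u = 0) {b : V}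
    (hb : Fu Q U b) (g : Q) : k (g • b) = k b := by
  have h1 := hk _ (hb g)
  rwa [map_sub, sub_eq_zero] at h1

theorem m2_one (U : AddSubgroup V) : M2 U (1 : Hs p V Q) :=
  ⟨U.zero_mem, fun _ _ => rfl⟩

theorem m2_mul {U : AddSubgroup V} (hU : ∀ g : Q, ∀ u ∈ U, g • u ∈ U) {x y : Hs p V Q}
    (hx : M2 U x) (hy : M2 U y) : M2 U (x * y) ∧ (x * y).z = x.z + y.z := by
  refine ⟨⟨?_, fun b hb => ?_⟩, ?_⟩
  · rw [mul_b]
    exact U.add_mem hx.1 (hU _ _ hy.1)
  · rw [mul_k, AddMonoidHom.add_apply, tw_apply, hx.2 b hb, hy.2 _ (fx_smul hb _), add_zero]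
  · rw [mul_z, hx.2 _ (fx_of_mem hU (hU _ _ hy.1)), add_zero]

theorem m2_list {U : AddSubgroup V} (hU : ∀ g : Q, ∀ u ∈ U, g • u ∈ U) {ι : Type*}
    (f : ι → Hs p V Q) (l : List ι) (h : ∀ i ∈ l, M2 U (f i)) :
    M2 U (l.map f).prod ∧ (l.map f).prod.z = (l.map fun i => (f i).z).sum := by
  induction l with
  | nil => exact ⟨m2_one U, rfl⟩
  | cons i l ih =>
    obtain ⟨h1, h2⟩ := ih fun j hj => h j (List.mem_cons_of_mem _ hj)
    obtain ⟨h3, h4⟩ := m2_mul hU (h i List.mem_cons_self) h1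
    rw [List.map_cons, List.prod_cons, List.map_cons, List.sum_cons, h4, h2]
    exact ⟨h3, rfl⟩

theorem com_m1 {U : AddSubgroup V} {x y : Hs p V Q} (hx : M1 U x) (hy : M1 U y) :
    M2 U ⁅x, y⁆ ∧ (⁅x, y⁆ : Hs p V Q).z = x.k y.b - y.k x.b := by
  have h1 : x * y = ⁅x, y⁆ * (y * x) := by
    rw [commutatorElement_def]
    group
  set c : Hs p V Q := ⁅x, y⁆ with hc
  have hyx : Fu Q U (y.b + y.g • x.b) := fx_add hy.1 (fx_smul hx.1 _)
  have hb := congrArg Hs.b h1
  have hk := congrArg Hs.k h1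
  have hz := congrArg Hs.z h1
  rw [mul_b, mul_b, mul_b] at hb
  rw [mul_k, mul_k, mul_k] at hk
  rw [mul_z, mul_z, mul_z, mul_b] at hz
  have h2 : M2 U c := by
    refine ⟨?_, fun b hb' => ?_⟩
    · have h3 := U.sub_mem (U.sub_mem (hy.1 x.g) (hyx c.g)) (hx.1 y.g)
      have h4 : c.b = x.g • y.b - y.b - (c.g • (y.b + y.g • x.b) - (y.b + y.g • x.b)) -
          (y.g • x.b - x.b) := by
        rw [eq_sub_of_add_eq hb.symm]
        abel
      rw [h4]
      exact h3
    · have h3 := DFunLike.congr_fun hk b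
      rw [AddMonoidHom.add_apply, AddMonoidHom.add_apply, tw_apply, tw_apply,
        AddMonoidHom.add_apply, tw_apply, k_smul hy.2 hb', k_smul hy.2 hb',
        k_smul hx.2 (fx_smul hb' _), k_smul hx.2 hb'] at h3
      linear_combination -h3
  refine ⟨h2, ?_⟩
  rw [h2.2 _ (fx_smul hyx _), k_smul hx.2 hy.1, k_smul hy.2 hx.1] at hz
  linear_combination -hz

theorem com_t (χ : V →+ ZMod p) (y : Hs p V Q) (h : tw y.g χ = χ) :
    ⁅(⟨0, χ, 0, 1⟩ : Hs p V Q), y⁆ = ⟨0, 0, χ y.b, 1⟩ := by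
  rw [commutatorElement_def, mul_inv_eq_iff_eq_mul, mul_inv_eq_iff_eq_mul]
  apply Hs.ext
  · rw [mul_b, mul_b, mul_b]
    simp
  · rw [mul_k, mul_k, mul_k]
    show χ + tw 1 y.k = 0 + tw 1 y.k + tw (1 * y.g) χ
    rw [one_mul, h, tw_one, zero_add, add_comm]
  · rw [mul_z, mul_z, mul_z]
    simp [add_comm]
  · rw [mul_g, mul_g, mul_g]
    simp

theorem m2_t (U : AddSubgroup V) (a : ZMod p) : M2 U (⟨0, 0, a, 1⟩ : Hs p V Q) :=
  ⟨U.zero_mem, fun _ _ => rfl⟩

/-- the action on the quotient -/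
theorem fix_top [Finite V] [Fact p.Prime] (hQ : IsPGroup p Q) (hV : ∀ b : V, p • b = 0)
    {U : AddSubgroup V} (hU : ∀ g : Q, ∀ u ∈ U, g • u ∈ U) (h : ∀ b : V, Fu Q U b → b ∈ U) :
    ∀ b : V, b ∈ U := by
  by_contra hcon
  push Not at hcon
  obtain ⟨b₀, hb₀⟩ := hcon
  let inst : MulAction Q (V ⧸ U) :=
    { smul := fun g => QuotientAddGroup.map U U (DistribSMul.toAddMonoidHom V g)
        fun u hu => hU g u hu
      one_smul := by
        intro x
        obtain ⟨b, rfl⟩ := QuotientAddGroup.mk_surjective x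
        show (((1 : Q) • b : V) : V ⧸ U) = b
        rw [one_smul]
      mul_smul := by
        intro g h x
        obtain ⟨b, rfl⟩ := QuotientAddGroup.mk_surjective x
        show (((g * h) • b : V) : V ⧸ U) = ((g • (h • b) : V) : V ⧸ U)
        rw [mul_smul] }
  have hsm : ∀ (g : Q) (b : V), g • (b : V ⧸ U) = ((g • b : V) : V ⧸ U) := fun _ _ => rfl
  have hdvd : p ∣ Nat.card (V ⧸ U) := by
    have h1 : (b₀ : V ⧸ U) ≠ 0 := fun h => hb₀ ((QuotientAddGroup.eq_zero_iff b₀).1 h)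
    have h2 : p • (b₀ : V ⧸ U) = 0 := by
      have h3 : ((p • b₀ : V) : V ⧸ U) = p • (b₀ : V ⧸ U) := rfl
      rw [← h3, hV]
      rfl
    rw [← addOrderOf_eq_prime h2 h1]
    exact addOrderOf_dvd_natCard _
  have h0 : (0 : V ⧸ U) ∈ MulAction.fixedPoints Q (V ⧸ U) := by
    intro g
    have h3 : ((0 : V) : V ⧸ U) = 0 := rfl
    rw [← h3, hsm, smul_zero]
  obtain ⟨x, hx, hx0⟩ := hQ.exists_fixed_point_of_prime_dvd_card_of_fixed_point (V ⧸ U) hdvd h0
  obtain ⟨b, rfl⟩ := QuotientAddGroup.mk_surjective x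
  apply hx0
  symm
  rw [QuotientAddGroup.eq_zero_iff]
  apply h
  intro g
  have h1 := hx g
  rw [hsm] at h1
  have h2 := QuotientAddGroup.eq.1 h1.symm
  rwa [neg_add_eq_sub] at h2

end H48.UX
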