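import Mathlib

/-!
# [H48 UX HS] the Heisenberg group of a module and its dual with the action of a group

`V` an additive group with an action of `Q`, `V →+ ZMod p` its dual. `Hs p V Q`: elements `(b, k, z) g` with `b ∈ V`, `k` in the dual, `z ∈ ZMod p`, `g ∈ Q`, product
`(b + g b', k + g k', z + z' + k (g b')) g g'`.
* `tw g k`: the action on the dual.
* `card_hs`, `pow_hs`: the order and the exponent.
-/

set_option autoImplicit false

noncomputable section

namespace H48.UX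

/-- the Heisenberg group of `V`, its dual and `Q` -/
@[ext] structure Hs (p : ℕ) (V Q : Type) [AddCommGroup V] where
  b : V
  k : V →+ ZMod p
  z : ZMod p
  g : Q

section act

variable {p : ℕ} {V Q : Type} [AddCommGroup V] [Group Q] [DistribMulAction Q V]

/-- the action on the dual -/
def tw (g : Q) (k : V →+ ZMod p) : V →+ ZMod p := k.comp (DistribSMul.toAddMonoidHom V g⁻¹)

theorem tw_apply (g : Q) (k : V →+ ZMod p) (b : V) : tw g k b = k (g⁻¹ • b) := rfl

theorem tw_one (k : V →+ ZMod p) : tw (1 : Q) k = k := by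
  ext b
  rw [tw_apply, inv_one, one_smul]

theorem tw_mul (g h : Q) (k : V →+ ZMod p) : tw (g * h) k = tw g (tw h k) := by
  ext b
  rw [tw_apply, tw_apply, tw_apply, mul_inv_rev, mul_smul]

theorem tw_add (g : Q) (k k' : V →+ ZMod p) : tw g (k + k') = tw g k + tw g k' := rfl

theorem tw_zero (g : Q) : tw g (0 : V →+ ZMod p) = 0 := rfl

theorem tw_smul (g : Q) (k : V →+ ZMod p) (b : V) : tw g k (g • b) = k b := by
  rw [tw_apply, inv_smul_smul]

instance : Mul (Hs p V Q) :=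
  ⟨fun x y => ⟨x.b + x.g • y.b, x.k + tw x.g y.k, x.z + y.z + x.k (x.g • y.b), x.g * y.g⟩⟩

instance : One (Hs p V Q) := ⟨⟨0, 0, 0, 1⟩⟩

instance : Inv (Hs p V Q) :=
  ⟨fun x => ⟨-(x.g⁻¹ • x.b), -(tw x.g⁻¹ x.k), -x.z + x.k x.b, x.g⁻¹⟩⟩

theorem mul_b (x y : Hs p V Q) : (x * y).b = x.b + x.g • y.b := rfl
theorem mul_k (x y : Hs p V Q) : (x * y).k = x.k + tw x.g y.k := rfl
theorem mul_z (x y : Hs p V Q) : (x * y).z = x.z + y.z + x.k (x.g • y.b) := rfl
theorem mul_g (x y : Hs p V Q) : (x * y).g = x.g * y.g := rfl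
theorem one_b : (1 : Hs p V Q).b = 0 := rfl
theorem one_k : (1 : Hs p V Q).k = 0 := rfl
theorem one_z : (1 : Hs p V Q).z = 0 := rfl
theorem one_g : (1 : Hs p V Q).g = 1 := rfl
theorem inv_b (x : Hs p V Q) : (x⁻¹).b = -(x.g⁻¹ • x.b) := rfl
theorem inv_k (x : Hs p V Q) : (x⁻¹).k = -(tw x.g⁻¹ x.k) := rfl
theorem inv_z (x : Hs p V Q) : (x⁻¹).z = -x.z + x.k x.b := rfl
theorem inv_g (x : Hs p V Q) : (x⁻¹).g = x.g⁻¹ := rfl

instance : Group (Hs p V Q) := Group.ofLeftAxioms
  (by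
    intro x y w
    apply Hs.ext
    · rw [mul_b, mul_b, mul_b, mul_b, mul_g, smul_add, mul_smul, add_assoc]
    · rw [mul_k, mul_k, mul_k, mul_k, mul_g, tw_add, tw_mul, add_assoc]
    · rw [mul_z, mul_z, mul_z, mul_z, mul_b, mul_k, mul_g, AddMonoidHom.add_apply, mul_smul,
        tw_smul, smul_add, map_add]
      ring
    · rw [mul_g, mul_g, mul_g, mul_g, mul_assoc])
  (by
    intro x
    apply Hs.ext
    · rw [mul_b, one_b, one_g, one_smul, zero_add]
    · rw [mul_k, one_k, one_g, tw_one, zero_add]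
    · rw [mul_z, one_z, one_k, AddMonoidHom.zero_apply, zero_add, add_zero]
    · rw [mul_g, one_g, one_mul])
  (by
    intro x
    apply Hs.ext
    · rw [mul_b, inv_b, inv_g, neg_add_cancel, one_b]
    · rw [mul_k, inv_k, inv_g, neg_add_cancel, one_k]
    · rw [mul_z, inv_z, inv_k, inv_g, AddMonoidHom.neg_apply, tw_smul, one_z]
      ring
    · rw [mul_g, inv_g, inv_mul_cancel, one_g])

/-- the projection to `Q` -/
def prQ : Hs p V Q →* Q where
  toFun x := x.g
  map_one' := rfl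
  map_mul' _ _ := rfl

theorem prQ_apply (x : Hs p V Q) : prQ x = x.g := rfl

theorem npow_hs (x : Hs p V Q) (hx : x.g = 1) (n : ℕ) :
    (x ^ n).b = n • x.b ∧ (x ^ n).k = n • x.k ∧
      (x ^ n).z = n • x.z + (n.choose 2 : ZMod p) * x.k x.b ∧ (x ^ n).g = 1 := by
  induction n with
  | zero =>
    rw [pow_zero]
    refine ⟨?_, ?_, ?_, rfl⟩
    · rw [one_b, zero_smul]
    · rw [one_k, zero_smul]
    · rw [one_z, zero_smul]
      simp
  | succ n ih =>
    obtain ⟨h1, h2, h3, h4⟩ := ih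
    rw [pow_succ]
    refine ⟨?_, ?_, ?_, ?_⟩
    · rw [mul_b, h1, h4, one_smul, succ_nsmul]
    · rw [mul_k, h2, h4, tw_one, succ_nsmul]
    · rw [mul_z, h3, h2, h4, one_smul, AddMonoidHom.nsmul_apply, Nat.choose_succ_succ' n 1,
        Nat.choose_one_right, succ_nsmul]
      push_cast
      simp only [nsmul_eq_mul]
      ring
    · rw [mul_g, h4, hx, one_mul]

theorem pow_hs (hp : p.Prime) (hV : ∀ b : V, p • b = 0) {κ : ℕ} (hQ : ∀ g : Q, g ^ p ^ κ = 1)
    (x : Hs p V Q) : x ^ p ^ (κ + 2) = 1 := by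
  rw [pow_add, pow_mul]
  have h1 : (x ^ p ^ κ).g = 1 := by
    rw [← prQ_apply, map_pow, prQ_apply, hQ]
  obtain ⟨h2, h3, h4, h5⟩ := npow_hs (x ^ p ^ κ) h1 (p ^ 2)
  have hc : ((p ^ 2).choose 2 : ZMod p) = 0 := by
    rw [ZMod.natCast_eq_zero_iff]
    refine hp.dvd_choose_pow (by norm_num) ?_
    have := hp.two_le
    nlinarith
  have hp0 : (p : ZMod p) = 0 := ZMod.natCast_self p
  apply Hs.ext
  · rw [h2, one_b, pow_two, mul_smul, hV]
  · rw [h3, one_k]
    ext b
    rw [AddMonoidHom.nsmul_apply, AddMonoidHom.zero_apply, nsmul_eq_mul, pow_two, Nat.cast_mul,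
      hp0, zero_mul, zero_mul]
  · rw [h4, hc, one_z, zero_mul, add_zero, nsmul_eq_mul, pow_two, Nat.cast_mul, hp0, zero_mul,
      zero_mul]
  · rw [h5, one_g]

end act

theorem inj_hs (p : ℕ) (V Q : Type) [AddCommGroup V] :
    Function.Injective (fun x : Hs p V Q => (x.b, (x.k : V → ZMod p), x.z, x.g)) := by
  intro x y h
  simp only [Prod.mk.injEq] at h
  exact Hs.ext h.1 (DFunLike.coe_injective h.2.1) h.2.2.1 h.2.2.2

instance fin_hs (p : ℕ) [NeZero p] (V Q : Type) [AddCommGroup V] [Finite V] [Finite Q] :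
    Finite (Hs p V Q) := Finite.of_injective _ (inj_hs p V Q)

theorem card_hs (p : ℕ) [NeZero p] (V Q : Type) [AddCommGroup V] [Finite V] [Finite Q] :
    Nat.card (Hs p V Q) ≤ Nat.card V * (p ^ Nat.card V * (p * Nat.card Q)) := by
  refine (Nat.card_le_card_of_injective _ (inj_hs p V Q)).trans (le_of_eq ?_)
  rw [Nat.card_prod, Nat.card_prod, Nat.card_prod, Nat.card_fun, Nat.card_zmod]

end H48.UX
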