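import Pool.Agent.H35.UB.Nkl
import Pool.Agent.H48.UX.Hs

/-!
# [H48 UX LAY] the last layer `Nk N n` as a module of `P ⧸ N`

`LL N n h`: `Nk N n` written additively, `h : Nk N (n + 1) = ⊥`. The action of `P ⧸ N` is the conjugation.
* `ll_smul`: the action. `ll_exp`: the exponent. `ll_card`: the order.
-/

set_option autoImplicit false
set_option linter.dupNamespace false

open scoped commutatorElement

noncomputable section

namespace H48.UX

open H35.UB

variable {P : Type} [Group P]

theorem nk_cm {N : Subgroup P} [N.Normal] {n : ℕ} (h : Nk N (n + 1) = ⊥) {u : P}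
    (hu : u ∈ Nk N n) {b : P} (hb : b ∈ N) : u * b = b * u := by
  have h1 : ⁅u, b⁆ ∈ ⁅Nk N n, N⁆ := Subgroup.commutator_mem_commutator hu hb
  have h2 : (⁅Nk N n, N⁆ : Subgroup P) = ⊥ := h
  rw [h2, Subgroup.mem_bot, commutatorElement_eq_one_iff_mul_comm] at h1
  exact h1

/-- the last layer -/
def LL (N : Subgroup P) (n : ℕ) (_ : Nk N (n + 1) = ⊥) : Type := Additive (Nk N n)

variable {N : Subgroup P} [hN : N.Normal] {n : ℕ} {h : Nk N (n + 1) = ⊥}

instance : AddCommGroup (LL N n h) :=
  { (inferInstance : AddGroup (Additive (Nk N n))) with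
    add_comm := by
      intro a b
      have h1 : (Additive.toMul a : Nk N n) * Additive.toMul b =
          Additive.toMul b * Additive.toMul a := Subtype.ext
        (nk_cm h (Additive.toMul a).2 (nk_anti N (Nat.zero_le n) (Additive.toMul b).2))
      exact congrArg Additive.ofMul h1 }

instance [Finite P] : Finite (LL N n h) := inferInstanceAs (Finite (Nk N n))

/-- the element of `P` -/
def ll (u : LL N n h) : P := (Additive.toMul (show Additive (Nk N n) from u)).1

theorem ll_mem (u : LL N n h) : ll u ∈ Nk N n := (Additive.toMul (show Additive (Nk N n) from u)).2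

/-- the element of the layer -/
def lm (u : P) (hu : u ∈ Nk N n) : LL N n h := Additive.ofMul (⟨u, hu⟩ : Nk N n)

theorem ll_lm (u : P) (hu : u ∈ Nk N n) : ll (lm u hu : LL N n h) = u := rfl

theorem ll_inj {u v : LL N n h} (huv : ll u = ll v) : u = v := Subtype.ext huv

theorem lm_ll (u : LL N n h) : lm (ll u) (ll_mem u) = u := rfl

theorem ll_add (u v : LL N n h) : ll (u + v) = ll u * ll v := rfl

theorem ll_zero : ll (0 : LL N n h) = 1 := rfl

theorem ll_nsmul (k : ℕ) (u : LL N n h) : ll (k • u) = ll u ^ k := by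
  induction k with
  | zero => rw [zero_smul, pow_zero, ll_zero]
  | succ k ih => rw [succ_nsmul, ll_add, ih, pow_succ]

theorem lm_mul {u v : P} (hu : u ∈ Nk N n) (hv : v ∈ Nk N n) :
    (lm (u * v) (Subgroup.mul_mem _ hu hv) : LL N n h) = lm u hu + lm v hv := rfl

/-- the conjugation -/
def cnj (h : Nk N (n + 1) = ⊥) : P ⧸ N →* MulAut (Nk N n) :=
  QuotientGroup.lift N (MulAut.conjNormal : P →* MulAut (Nk N n)) (by
    intro x hx
    rw [MonoidHom.mem_ker]
    refine MulEquiv.ext fun u => Subtype.ext ?_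
    rw [MulAut.conjNormal_apply, ← nk_cm h u.2 hx, mul_inv_cancel_right]
    rfl)

theorem cnj_apply (x : P) (u : Nk N n) : (cnj h (x : P ⧸ N) u : P) = x * u * x⁻¹ := rfl

instance : DistribMulAction (P ⧸ N) (LL N n h) where
  smul q u := (Additive.ofMul (cnj h q (Additive.toMul (show Additive (Nk N n) from u))) : _)
  one_smul u := by
    show Additive.ofMul (cnj h 1 _) = _
    rw [map_one]
    rfl
  mul_smul q r u := by
    show Additive.ofMul (cnj h (q * r) _) = _
    rw [map_mul]
    rfl
  smul_zero q := congrArg Additive.ofMul (map_one (cnj h q))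
  smul_add q u v := congrArg Additive.ofMul (map_mul (cnj h q) _ _)

theorem ll_smul (x : P) (u : LL N n h) : ll ((x : P ⧸ N) • u) = x * ll u * x⁻¹ := rfl

theorem ll_exp {p : ℕ} (hg : N = Subgroup.closure {x | x ∈ N ∧ x ^ p = 1}) (u : LL N n h) :
    p • u = 0 := by
  apply ll_inj
  rw [ll_nsmul, ll_zero]
  exact nk_exp N n h hg _ (ll_mem u)

theorem ll_card [Finite P] : Nat.card (LL N n h) ≤ Nat.card P :=
  Nat.card_le_card_of_injective (fun u : LL N n h => ll u) fun _ _ huv => ll_inj huv

end H48.UX
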