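import Pool.Agent.H48.UX.Unf

/-!
# [H48 UX PHP] the honest homomorphism into the Heisenberg group

`php hn hK`: `σ ↦ (0, kp σ, 0) φ σ` for a crossed homomorphism `kp` with `Kp`.
* `php_b`, `php_k`, `php_z`, `php_g`: the components. `php_ft`, `php_t`, `php_a`, `php_bb`, `php_f`: finite type, the values at the generators.
* `php_hon`: `HonE L E s (php ..)` if `HonE L E s φ` and `φ (t_v) = 1` for `v ∈ s`, `v ∉ E`.
* `php_com`, `php_loc`: in the frame `Fx` the local relations.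
-/

set_option autoImplicit false
set_option linter.dupNamespace false

open scoped NumberField commutatorElement
open IsDedekindDomain
open scoped Classical

noncomputable section

namespace H48.UX

open H63.MA H38.BB H38.BG H57.PC H57.BRA H57.GP H77.WD Pool.Agent.H19.NF
  Pool.Agent.H19.AB Pool.Agent.H19.A2 H77.WE Pool.Agent.H19 H77.S3 H35.UB H70.UX H77.INP

variable {K : Type} [Field K] [NumberField K] {Ω : Type} [Field Ω] [Algebra K Ω]
  {p : ℕ} {ζ : K} {D : RD0 K p ζ} {L : LDs D Ω} {A : GS D Ω} {Fr : FR L} {Q : DP K Ω}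
  {B : SD D Q A} {P : Type} [Group P] {N : Subgroup P} [N.Normal] {n : ℕ}
  {s E : Finset (Pl K)} {φ : Gal(Ω/K) →* P ⧸ N} {χ : Pl K → P → ZMod p}
  {kp : Gal(Ω/K) → P → ZMod p}

/-- the value of the crossed homomorphism in the dual of the last layer -/
def kpd (hn : Nk N (n + 1) = ⊥) (hK : Kp L Fr A B N n s E φ χ kp) (σ : Gal(Ω/K)) :
    LL N n hn →+ ZMod p where
  toFun u := kp σ (ll u)
  map_zero' := by
    have h := hK.add σ 1 (Subgroup.one_mem _) 1 (Subgroup.one_mem _)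
    rw [mul_one] at h
    rw [ll_zero]
    linear_combination -h
  map_add' u u' := by
    rw [ll_add]
    exact hK.add σ _ (ll_mem u) _ (ll_mem u')

theorem kpd_apply (hn : Nk N (n + 1) = ⊥) (hK : Kp L Fr A B N n s E φ χ kp) (σ : Gal(Ω/K))
    (u : LL N n hn) : kpd hn hK σ u = kp σ (ll u) := rfl

theorem kpd_mul (hn : Nk N (n + 1) = ⊥) (hK : Kp L Fr A B N n s E φ χ kp) (σ τ : Gal(Ω/K)) :
    kpd hn hK (σ * τ) = kpd hn hK σ + tw (φ σ) (kpd hn hK τ) := by
  ext u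
  obtain ⟨x, hx⟩ := QuotientGroup.mk_surjective (φ σ)
  rw [AddMonoidHom.add_apply, tw_apply, kpd_apply, kpd_apply, kpd_apply, ← hx,
    ← QuotientGroup.mk_inv, ll_smul, inv_inv]
  exact hK.crs σ τ x hx _ (ll_mem u)

/-- the homomorphism -/
def php (hn : Nk N (n + 1) = ⊥) (hK : Kp L Fr A B N n s E φ χ kp) :
    Gal(Ω/K) →* Hs p (LL N n hn) (P ⧸ N) :=
  MonoidHom.mk' (fun σ => ⟨0, kpd hn hK σ, 0, φ σ⟩) (by
    intro σ τ
    apply Hs.ext
    · rw [mul_b]
      simp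
    · rw [mul_k, kpd_mul]
    · rw [mul_z]
      simp
    · rw [mul_g, map_mul])

variable (hn : Nk N (n + 1) = ⊥) (hK : Kp L Fr A B N n s E φ χ kp)

theorem php_apply (σ : Gal(Ω/K)) : php hn hK σ = ⟨0, kpd hn hK σ, 0, φ σ⟩ := rfl

theorem php_ft (hφ : H38.ML.FT φ) : H38.ML.FT (php hn hK) := by
  obtain ⟨F, hF, hF'⟩ := hK.ft
  obtain ⟨F₂, hF₂, hk⟩ := hφ
  refine ⟨F ⊔ F₂, inferInstance, fun τ hτ => ?_⟩
  have h1 : τ ∈ F.fixingSubgroup := IntermediateField.fixingSubgroup_antitone le_sup_left hτ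
  have h2 : τ ∈ F₂.fixingSubgroup := IntermediateField.fixingSubgroup_antitone le_sup_right hτ
  rw [MonoidHom.mem_ker, php_apply, MonoidHom.mem_ker.1 (hk h2)]
  apply Hs.ext
  · rfl
  · ext u
    have h3 := hF' 1 τ h1
    rw [one_mul] at h3
    rw [kpd_apply, h3]
    have h4 := hK.crs 1 1 1 (by rw [map_one]; rfl) (ll u) (ll_mem u)
    rw [one_mul, inv_one, one_mul, mul_one] at h4
    rw [one_k, AddMonoidHom.zero_apply]
    linear_combination -h4
  · rfl
  · rfl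

theorem kpd_t {v : Pl K} (hv : v ∈ s) (u : LL N n hn) : kpd hn hK (L.t v) u = χ v (ll u) :=
  hK.t v hv _ (ll_mem u)

theorem kpd_t0 {v : Pl K} (hv : v ∉ s) : kpd hn hK (L.t v) = 0 := by
  ext u
  exact hK.t0 v hv _

theorem php_a (i : Fin A.g) : php hn hK (A.a i) = ⟨0, 0, 0, φ (A.a i)⟩ := by
  rw [php_apply]
  apply Hs.ext
  · rfl
  · ext u
    exact hK.a i _
  · rfl
  · rfl

theorem php_b (i : Fin A.g) : php hn hK (B.b i) = ⟨0, 0, 0, φ (B.b i)⟩ := by
  rw [php_apply]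
  apply Hs.ext
  · rfl
  · ext u
    exact hK.b i _
  · rfl
  · rfl

theorem php_f {v : Pl K} (hv : v ∈ E) : php hn hK (Fr.F v) = ⟨0, 0, 0, φ (Fr.F v)⟩ := by
  rw [php_apply]
  apply Hs.ext
  · rfl
  · ext u
    exact hK.f v hv _
  · rfl
  · rfl

theorem php_t0 {v : Pl K} (hv : v ∉ s) : php hn hK (L.t v) = ⟨0, 0, 0, φ (L.t v)⟩ := by
  rw [php_apply, kpd_t0 hn hK hv]

theorem php_hon (hp : p.Prime) (hφ : HonE L E s φ) (hφ1 : ∀ v ∈ s, v ∉ E → φ (L.t v) = 1) :
    HonE L E s (php hn hK) := by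
  refine ⟨php_ft hn hK hφ.1, fun v hv hvE => ⟨?_, fun hvs => ?_⟩⟩
  · have h1 : (php hn hK (L.t v)).g = 1 := by
      by_cases hvs : v ∈ s
      · exact hφ1 v hvs hvE
      · exact (hφ.2 v hv hvE).2 hvs
    have hp0 : (p : ZMod p) = 0 := ZMod.natCast_self p
    obtain ⟨h2, h3, h4, h5⟩ := npow_hs _ h1 p
    have hb : (php hn hK (L.t v)).b = 0 := rfl
    have hz : (php hn hK (L.t v)).z = 0 := rfl
    apply Hs.ext
    · rw [h2, hb, smul_zero, one_b]
    · rw [h3, one_k]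
      ext u
      rw [AddMonoidHom.nsmul_apply, AddMonoidHom.zero_apply, nsmul_eq_mul, hp0, zero_mul]
    · rw [h4, hz, hb, map_zero, mul_zero, add_zero, smul_zero, one_z]
    · rw [h5, one_g]
  · rw [php_t0 hn hK hvs, (hφ.2 v hv hvE).2 hvs]
    rfl

theorem php_hat (w : FW A) : hat L A (php hn hK) w =
    th L A φ (fun v => kpd hn hK (L.t v)) 0 0 w := by
  have h : hat L A (php hn hK) = th L A φ (fun v => kpd hn hK (L.t v)) 0 0 := by
    refine FreeGroup.ext_hom _ _ fun x => ?_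
    rcases x with v | i
    · rw [hat_inl, th_inl]
      rfl
    · rw [hat_inr, th_inr, php_a]
      rfl
  rw [h]

end H48.UX
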