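import Pool.Agent.H48.UX.Php

/-!
# [H48 UX PHS] the phase formula

* `m3_list`: on the elements with `k = 0` the coordinate `z` is additive.
* `com_d`: the commutator of `(d, 0, 0) 1` and `y`.
* `phs`: the relation (R) in the Heisenberg group if `k0` vanishes at the words of `E` and of the dual elements, for `c` with values `dE v` at `t_v`, `0` at the `a_i`:
  `∑ χ v (c (X v)) = ∑ k0 (X v) (φ(F_v) dE v)`.
* `phg`: the same for the values in `P` and an honest crossed homomorphism `kp`.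
-/

set_option autoImplicit false
set_option linter.dupNamespace false

open scoped NumberField commutatorElement
open IsDedekindDomain
open scoped Classical

noncomputable section

namespace H48.UX

open H63.MA H38.BB H38.BG H57.PC H57.BRA H57.GP H77.WD Pool.Agent.H19.NF
  Pool.Agent.H19.AB Pool.Agent.H19.A2 H77.WE Pool.Agent.H19 H77.S3 H35.UB H70.UX

section grp

variable {p : ℕ} {V Q : Type} [AddCommGroup V] [Group Q] [DistribMulAction Q V]

theorem m3_list {ι : Type*} (f : ι → Hs p V Q) (l : List ι) (h : ∀ i ∈ l, (f i).k = 0) :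
    (l.map f).prod.k = 0 ∧ (l.map f).prod.z = (l.map fun i => (f i).z).sum := by
  induction l with
  | nil => exact ⟨rfl, rfl⟩
  | cons i l ih =>
    obtain ⟨h1, h2⟩ := ih fun j hj => h j (List.mem_cons_of_mem _ hj)
    have h3 := h i List.mem_cons_self
    rw [List.map_cons, List.prod_cons, List.map_cons, List.sum_cons]
    refine ⟨?_, ?_⟩
    · rw [mul_k, h3, h1, tw_zero, add_zero]
    · rw [mul_z, h3, h2, AddMonoidHom.zero_apply, add_zero]

theorem com_k (x y : Hs p V Q) (hx : x.k = 0) (hy : y.k = 0) :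
    (⁅x, y⁆ : Hs p V Q).k = 0 ∧ (⁅x, y⁆ : Hs p V Q).z = 0 := by
  rw [commutatorElement_def]
  have hxi : (x⁻¹).k = 0 := by rw [inv_k, hx, tw_zero, neg_zero]
  have hyi : (y⁻¹).k = 0 := by rw [inv_k, hy, tw_zero, neg_zero]
  have h1 : (x * y).k = 0 := by rw [mul_k, hx, hy, tw_zero, add_zero]
  have h2 : (x * y * x⁻¹).k = 0 := by rw [mul_k, h1, hxi, tw_zero, add_zero]
  refine ⟨by rw [mul_k, h2, hyi, tw_zero, add_zero], ?_⟩
  rw [mul_z, mul_z, mul_z, h2, h1, hx, inv_z, inv_z, hx, hy]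
  simp only [AddMonoidHom.zero_apply]
  ring

theorem com_d (d : V) (y : Hs p V Q) :
    (⁅(⟨d, 0, 0, 1⟩ : Hs p V Q), y⁆ : Hs p V Q).k = 0 ∧
      (⁅(⟨d, 0, 0, 1⟩ : Hs p V Q), y⁆ : Hs p V Q).z = -y.k (y.g • d) := by
  have h : ⁅(⟨d, 0, 0, 1⟩ : Hs p V Q), y⁆ = ⟨d - y.g • d, 0, -y.k (y.g • d), 1⟩ := by
    rw [commutatorElement_def, mul_inv_eq_iff_eq_mul, mul_inv_eq_iff_eq_mul]
    apply Hs.ext
    · rw [mul_b, mul_b, mul_b]
      show d + (1 : Q) • y.b = d - y.g • d + (1 : Q) • y.b + ((1 : Q) * y.g) • d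
      rw [one_smul, one_mul]
      abel
    · rw [mul_k, mul_k, mul_k]
      show 0 + tw 1 y.k = 0 + tw 1 y.k + tw (1 * y.g) 0
      rw [tw_zero, add_zero]
    · rw [mul_z, mul_z, mul_z, mul_k]
      show (0 : ZMod p) + y.z + 0 = -y.k (y.g • d) + y.z + 0 + 0 +
        ((0 : V →+ ZMod p) + tw 1 y.k) (((1 : Q) * y.g) • d)
      rw [AddMonoidHom.add_apply, tw_one, one_mul, AddMonoidHom.zero_apply]
      ring
    · rw [mul_g, mul_g, mul_g]
      show (1 : Q) * y.g = 1 * y.g * 1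
      rw [mul_one]
  rw [h]
  exact ⟨rfl, rfl⟩

end grp

variable {K : Type} [Field K] [NumberField K] {Ω : Type} [Field Ω] [Algebra K Ω]
  {p : ℕ} {ζ : K} {V Q : Type} [AddCommGroup V] [Group Q] [DistribMulAction Q V]

theorem blk_m3 {g : ℕ} (pl : Fin g → Pl K)
    (v : Pl K) (x y : Fin g → Hs p V Q) (hx : ∀ i, (x i).k = 0) (hy : ∀ i, (y i).k = 0) :
    (blk pl v x y).k = 0 ∧ (blk pl v x y).z = 0 := by
  have h := m3_list (fun i => ⁅x i, y i⁆) ((List.finRange g).filter fun i => pl i = v)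
    fun i _ => (com_k _ _ (hx i) (hy i)).1
  refine ⟨h.1, ?_⟩
  have h2 : (blk pl v x y).z = _ := h.2
  rw [h2]
  apply List.sum_eq_zero
  intro a ha
  obtain ⟨i, -, rfl⟩ := List.mem_map.1 ha
  exact (com_k _ _ (hx i) (hy i)).2

variable {D : RD0 K p ζ} {L : LDs D Ω} {A : GS D Ω}

theorem phs {k M : ℕ} {Q' : DP K Ω} {Fr : FR L} {B : SD D Q' A} {Z : Finset (Pl K)}
    (hZ : ∀ v ∈ Z, v ∉ D.S0) {l : List (Pl K)} (hl : l.Nodup)
    (hlZ : ∀ v, v ∈ l ↔ v ∈ Z ∨ v ∈ D.S0) {X : Pl K → FW A} {Y : Fin A.g → FW A}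
    (hR : Rel k M L Fr A B Z l X Y) [Finite (Hs p V Q)] (hS : Sml p k M (Hs p V Q))
    {φ : Gal(Ω/K) →* Q} (hφ : Unz L Z φ) {E : Finset (Pl K)} (hE : E ⊆ Z)
    (hφ1 : ∀ v ∈ Z, v ∉ E → φ (L.t v) = 1) {χ : Pl K → V →+ ZMod p}
    (hχ0 : ∀ v, v ∉ Z ∨ v ∈ E → χ v = 0)
    (hχ1 : ∀ v ∈ Z, v ∉ E → tw (φ (Fr.F v)) (χ v) = χ v)
    (hkE : ∀ v ∈ E, k0 L A φ χ (X v) = 0) (hkY : ∀ i, k0 L A φ χ (Y i) = 0)
    {dE : Pl K → V} (hdE0 : ∀ v, v ∉ Z ∨ v ∈ E → dE v = 0)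
    (hd : ∀ v, dE v = 0 ∨ χ v = 0) :
    ∑ v ∈ Z, χ v (th L A φ χ dE 0 (X v)).b =
      ∑ v ∈ Z, k0 L A φ χ (X v) (φ (Fr.F v) • dE v) := by
  set θ : FW A →* Hs p V Q := th L A φ χ dE 0 with hθ
  have hprs : Function.Surjective (prQ (p := p) (V := V) (Q := Q)) := fun g =>
    ⟨⟨0, 0, 0, g⟩, rfl⟩
  have hfQ : Finite Q := Finite.of_surjective _ hprs
  have hQ : Sml p k M Q := sml_surj hS prQ hprs
  obtain ⟨hX, hY, hW, hR'⟩ := hR
  have hXg : ∀ v ∈ Z, hat L A φ (X v) = φ (Fr.F v) := (hW Q hQ φ hφ).1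
  have hone : ∀ v, v ∉ Z → θ (FreeGroup.of (Sum.inl v)) = 1 := by
    intro v hv
    have h1 : φ (L.t v) = 1 := by
      by_cases hv0 : v ∈ D.S0
      · rw [t_S0 L hv0, map_one]
      · exact hφ.2 v hv0 hv
    rw [hθ, th_inl, h1, hdE0 v (Or.inl hv), hχ0 v (Or.inl hv)]
    rfl
  have hrel := hR' (Hs p V Q) hS θ hone
  have hk : ∀ w, (θ w).k = k0 L A φ χ w := th_k φ χ dE 0
  set F : Pl K → Hs p V Q := fun v => wrd B (fun v => θ (FreeGroup.of (Sum.inl v)))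
    (fun v => θ (X v)) (fun i => θ (FreeGroup.of (Sum.inr i))) (fun i => θ (Y i)) v with hF
  have hZv : ∀ v ∈ Z, (F v).k = 0 ∧ (F v).z = χ v (θ (X v)).b -
      k0 L A φ χ (X v) (φ (Fr.F v) • dE v) := by
    intro v hv
    have h1 : F v = ⁅θ (FreeGroup.of (Sum.inl v)), θ (X v)⁆ := if_neg (hZ v hv)
    have hgX : (θ (X v)).g = φ (Fr.F v) := by
      rw [hθ, th_g, hXg v hv]
    rw [h1]
    by_cases hvE : v ∈ E
    · have h2 : (θ (FreeGroup.of (Sum.inl v))).k = 0 := by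
        rw [hk, k0, th_inl, hχ0 v (Or.inr hvE)]
      have h3 : (θ (X v)).k = 0 := by
        rw [hk, hkE v hvE]
      have h4 := com_k _ _ h2 h3
      refine ⟨h4.1, ?_⟩
      rw [h4.2, hχ0 v (Or.inr hvE), hkE v hvE, AddMonoidHom.zero_apply, AddMonoidHom.zero_apply,
        sub_zero]
    · rcases hd v with hd0 | hc0
      · have h2 : θ (FreeGroup.of (Sum.inl v)) = ⟨0, χ v, 0, 1⟩ := by
          rw [hθ, th_inl, hd0, hφ1 v hv hvE]
        rw [h2, com_t _ _ (by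
          rw [hgX]
          exact hχ1 v hv hvE), hd0, smul_zero, map_zero, sub_zero]
        exact ⟨rfl, rfl⟩
      · have h2 : θ (FreeGroup.of (Sum.inl v)) = ⟨dE v, 0, 0, 1⟩ := by
          rw [hθ, th_inl, hc0, hφ1 v hv hvE]
        have h3 := com_d (dE v) (θ (X v))
        rw [h2]
        refine ⟨h3.1, ?_⟩
        rw [h3.2, hgX, hc0, AddMonoidHom.zero_apply, zero_sub, hk]
  have hSv : ∀ v ∈ D.S0, (F v).k = 0 ∧ (F v).z = 0 := by
    intro v hv
    have h1 : F v = blk B.pl v (fun i => θ (FreeGroup.of (Sum.inr i))) (fun i => θ (Y i)) :=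
      if_pos hv
    rw [h1]
    refine blk_m3 B.pl v _ _ (fun i => ?_) fun i => ?_
    · rw [hθ, th_inr]
    · rw [hk, hkY]
  have hall : ∀ v ∈ l, (F v).k = 0 := by
    intro v hv
    rcases (hlZ v).1 hv with h | h
    · exact (hZv v h).1
    · exact (hSv v h).1
  have h1 := (m3_list F l hall).2
  have h2 : (l.map F).prod = 1 := hrel
  rw [h2, one_z, ← List.sum_toFinset _ hl] at h1
  have h3 : l.toFinset = Z ∪ D.S0 := by
    ext v
    rw [List.mem_toFinset, Finset.mem_union]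
    exact hlZ v
  have h4 : Disjoint Z D.S0 := Finset.disjoint_left.2 fun v hv => hZ v hv
  rw [h3, Finset.sum_union h4, Finset.sum_congr rfl fun v hv => (hZv v hv).2,
    Finset.sum_eq_zero fun v hv => (hSv v hv).2, Finset.sum_sub_distrib, add_zero] at h1
  linear_combination -h1

end H48.UX
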