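import Pool.Agent.H48.UX.Th

/-!
# [H48 UX RID] the relation (R) in the Heisenberg group

* `blk_m2`: the block of a place in `S0`.
* `rel_id`: for `dE`, `dA` fixed modulo `U`, the values of `k0` at the words of `E` and at the words of the dual elements being `0` on `U`:
  `∑ χ v (b (X v)) = ∑_E k0 (X v) (dE v) + ∑ k0 (Y i) (dA i)`.
-/

set_option autoImplicit false
set_option linter.dupNamespace false

open scoped NumberField commutatorElement
open IsDedekindDomain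
open scoped Classical

noncomputable section

namespace H48.UX

open H63.MA H38.BB H38.BG H57.PC H57.BRA H57.GP H77.WD Pool.Agent.H19.NF
  Pool.Agent.H19.AB Pool.Agent.H19.A2 H77.WE Pool.Agent.H19 H77.S3

variable {K : Type} [Field K] [NumberField K] {Ω : Type} [Field Ω] [Algebra K Ω]
  {p : ℕ} {ζ : K} {V Q : Type} [AddCommGroup V] [Group Q] [DistribMulAction Q V]

theorem blk_m2 {U : AddSubgroup V} (hU : ∀ g : Q, ∀ u ∈ U, g • u ∈ U) {g : ℕ} (pl : Fin g → Pl K)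
    (v : Pl K) (x y : Fin g → Hs p V Q) (hx : ∀ i, M1 U (x i)) (hy : ∀ i, M1 U (y i)) :
    M2 U (blk pl v x y) ∧ (blk pl v x y).z =
      ∑ i ∈ Finset.univ.filter (fun i => pl i = v), ((x i).k (y i).b - (y i).k (x i).b) := by
  have h := m2_list hU (fun i => ⁅x i, y i⁆) ((List.finRange g).filter fun i => pl i = v)
    fun i _ => (com_m1 (hx i) (hy i)).1
  refine ⟨h.1, ?_⟩
  have h2 : (blk pl v x y).z = _ := h.2
  rw [h2, ← List.sum_toFinset _ ((List.nodup_finRange g).filter _)]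
  refine Finset.sum_congr ?_ fun i _ => (com_m1 (hx i) (hy i)).2
  ext i
  simp

variable {D : RD0 K p ζ} {L : LDs D Ω} {A : GS D Ω}

theorem rel_id {k M : ℕ} {Q' : DP K Ω} {Fr : FR L} {B : SD D Q' A} {Z : Finset (Pl K)}
    (hZ : ∀ v ∈ Z, v ∉ D.S0) {l : List (Pl K)} (hl : l.Nodup)
    (hlZ : ∀ v, v ∈ l ↔ v ∈ Z ∨ v ∈ D.S0) {X : Pl K → FW A} {Y : Fin A.g → FW A}
    (hR : Rel k M L Fr A B Z l X Y) [Finite (Hs p V Q)] (hS : Sml p k M (Hs p V Q))
    {φ : Gal(Ω/K) →* Q} (hφ : Unz L Z φ) {E : Finset (Pl K)} (hE : E ⊆ Z)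
    (hφ1 : ∀ v ∈ Z, v ∉ E → φ (L.t v) = 1) {χ : Pl K → V →+ ZMod p}
    (hχ0 : ∀ v, v ∉ Z ∨ v ∈ E → χ v = 0)
    (hχ1 : ∀ v ∈ Z, v ∉ E → tw (φ (Fr.F v)) (χ v) = χ v)
    {U : AddSubgroup V} (hU : ∀ g : Q, ∀ u ∈ U, g • u ∈ U)
    (hUE : ∀ v ∈ E, ∀ u ∈ U, k0 L A φ χ (X v) u = 0)
    (hUY : ∀ i, ∀ u ∈ U, k0 L A φ χ (Y i) u = 0) {dE : Pl K → V} {dA : Fin A.g → V}
    (hdE : ∀ v, Fu Q U (dE v)) (hdE0 : ∀ v, v ∉ E → dE v = 0) (hdA : ∀ i, Fu Q U (dA i)) :
    ∑ v ∈ Z, χ v (th L A φ χ dE dA (X v)).b =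
      ∑ v ∈ E, k0 L A φ χ (X v) (dE v) + ∑ i, k0 L A φ χ (Y i) (dA i) := by
  set θ : FW A →* Hs p V Q := th L A φ χ dE dA with hθ
  have hprs : Function.Surjective (prQ (p := p) (V := V) (Q := Q)) := fun g =>
    ⟨⟨0, 0, 0, g⟩, rfl⟩
  have hfQ : Finite Q := Finite.of_surjective _ hprs
  have hQ : Sml p k M Q := sml_surj hS prQ hprs
  obtain ⟨hX, hY, hW, hR'⟩ := hR
  have hXg : ∀ v ∈ Z, hat L A φ (X v) = φ (Fr.F v) := (hW Q hQ φ hφ).1
  have hone : ∀ v, v ∉ Z → θ (FreeGroup.of (Sum.inl v)) = 1 := by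
    intro v hv
    have h1 : φ (L.t v) = 1 := by
      by_cases hv0 : v ∈ D.S0
      · rw [t_S0 L hv0, map_one]
      · exact hφ.2 v hv0 hv
    rw [hθ, th_inl, h1, hdE0 v fun h => hv (hE h), hχ0 v (Or.inl hv)]
    rfl
  have hrel := hR' (Hs p V Q) hS θ hone
  have hb : ∀ w, Fu Q U (θ w).b := th_b φ χ dE dA hdE hdA
  have hk : ∀ w, (θ w).k = k0 L A φ χ w := th_k φ χ dE dA
  have hma : ∀ i, M1 U (θ (FreeGroup.of (Sum.inr i))) := by
    intro i
    refine ⟨hb _, fun u _ => ?_⟩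
    rw [hθ, th_inr]
    rfl
  have hmY : ∀ i, M1 U (θ (Y i)) := fun i => ⟨hb _, by
    rw [hk]
    exact hUY i⟩
  -- the values at the places
  set F : Pl K → Hs p V Q := fun v => wrd B (fun v => θ (FreeGroup.of (Sum.inl v)))
    (fun v => θ (X v)) (fun i => θ (FreeGroup.of (Sum.inr i))) (fun i => θ (Y i)) v with hF
  have hZv : ∀ v ∈ Z, M2 U (F v) ∧ (F v).z = χ v (θ (X v)).b -
      if v ∈ E then k0 L A φ χ (X v) (dE v) else 0 := by
    intro v hv
    have h1 : F v = ⁅θ (FreeGroup.of (Sum.inl v)), θ (X v)⁆ := if_neg (hZ v hv)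
    rw [h1]
    by_cases hvE : v ∈ E
    · have h2 : M1 U (θ (FreeGroup.of (Sum.inl v))) := by
        refine ⟨hb _, fun u _ => ?_⟩
        rw [hθ, th_inl, hχ0 v (Or.inr hvE)]
        rfl
      have h3 : M1 U (θ (X v)) := ⟨hb _, by
        rw [hk]
        exact hUE v hvE⟩
      have h4 := com_m1 h2 h3
      refine ⟨h4.1, ?_⟩
      rw [h4.2, if_pos hvE, hk (X v), hθ, th_inl]
    · have h2 : θ (FreeGroup.of (Sum.inl v)) = ⟨0, χ v, 0, 1⟩ := by
        rw [hθ, th_inl, hdE0 v hvE, hφ1 v hv hvE]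
      rw [h2, com_t _ _ (by
        rw [hθ, th_g, hXg v hv]
        exact hχ1 v hv hvE), if_neg hvE, sub_zero]
      exact ⟨m2_t U _, rfl⟩
  have hSv : ∀ v ∈ D.S0, M2 U (F v) ∧ (F v).z =
      ∑ i ∈ Finset.univ.filter (fun i => B.pl i = v), -k0 L A φ χ (Y i) (dA i) := by
    intro v hv
    have h1 : F v = blk B.pl v (fun i => θ (FreeGroup.of (Sum.inr i))) (fun i => θ (Y i)) :=
      if_pos hv
    have h2 := blk_m2 hU B.pl v _ _ hma hmY
    rw [h1]
    refine ⟨h2.1, ?_⟩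
    rw [h2.2]
    refine Finset.sum_congr rfl fun i _ => ?_
    rw [hk (Y i), hθ, th_inr]
    show (0 : ZMod p) - _ = _
    rw [zero_sub]
  have hall : ∀ v ∈ l, M2 U (F v) := by
    intro v hv
    rcases (hlZ v).1 hv with h | h
    · exact (hZv v h).1
    · exact (hSv v h).1
  have h1 := (m2_list hU F l hall).2
  have h2 : (l.map F).prod = 1 := hrel
  rw [h2, one_z, ← List.sum_toFinset _ hl] at h1
  have h3 : l.toFinset = Z ∪ D.S0 := by
    ext v
    rw [List.mem_toFinset, Finset.mem_union]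
    exact hlZ v
  have h4 : Disjoint Z D.S0 := Finset.disjoint_left.2 fun v hv => hZ v hv
  rw [h3, Finset.sum_union h4, Finset.sum_congr rfl fun v hv => (hZv v hv).2,
    Finset.sum_congr rfl fun v hv => (hSv v hv).2, Finset.sum_sub_distrib,
    Finset.sum_fiberwise_of_maps_to (fun i _ => B.mem i), ← Finset.sum_filter,
    Finset.filter_mem_eq_inter, Finset.inter_eq_right.2 hE, Finset.sum_neg_distrib] at h1
  linear_combination -h1

end H48.UX
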