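import Pool.Agent.H48.UX.Hm
import Pool.Agent.H77.S3.Crt

/-!
# [H48 UX TH] virtual crossed homomorphisms and the relation (R) in the Heisenberg group

`φ : Γ → Q` honest, `V` a finite `Q`-module. `th L φ χ dE dA`: the homomorphism of `FW A` to `Hs p V Q` with `t_v ↦ (dE v, χ v, 0) φ t_v`, `a_i ↦ (dA i, 0, 0) φ a_i`.
* `th_g`, `th_k`, `th_z`, `th_b`: its components.
* `k0`: the virtual crossed homomorphism with values in the dual, `k0 t_v = χ v`, `0` at the `a_i`.
* `rel_id`: the relation (R), for `dE`, `dA` fixed modulo `U` and the values of `k0` at the words of `E` and of the dual elements vanishing on `U`.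
-/

set_option autoImplicit false
set_option linter.dupNamespace false

open scoped NumberField commutatorElement
open IsDedekindDomain
open scoped Classical

noncomputable section

namespace H48.UX

open H63.MA H38.BB H38.BG H57.PC H57.BRA H57.GP H77.WD Pool.Agent.H19.NF
  Pool.Agent.H19.AB Pool.Agent.H19.A2 H77.WE Pool.Agent.H19 H77.S3

variable {K : Type} [Field K] [NumberField K] {Ω : Type} [Field Ω] [Algebra K Ω]
  {p : ℕ} {ζ : K} {D : RD0 K p ζ} {L : LDs D Ω} {A : GS D Ω}
  {V Q : Type} [AddCommGroup V] [Group Q] [DistribMulAction Q V]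

/-- the homomorphism to the Heisenberg group with given values at the letters -/
def th (L : LDs D Ω) (A : GS D Ω) (φ : Gal(Ω/K) →* Q) (χ : Pl K → V →+ ZMod p) (dE : Pl K → V)
    (dA : Fin A.g → V) : FW A →* Hs p V Q :=
  FreeGroup.lift (Sum.elim (fun v => ⟨dE v, χ v, 0, φ (L.t v)⟩) fun i => ⟨dA i, 0, 0, φ (A.a i)⟩)

variable (φ : Gal(Ω/K) →* Q) (χ : Pl K → V →+ ZMod p) (dE : Pl K → V) (dA : Fin A.g → V)

theorem th_inl (v : Pl K) : th L A φ χ dE dA (FreeGroup.of (Sum.inl v)) =
    ⟨dE v, χ v, 0, φ (L.t v)⟩ := by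
  unfold th
  rw [FreeGroup.lift_apply_of]
  rfl

theorem th_inr (i : Fin A.g) : th L A φ χ dE dA (FreeGroup.of (Sum.inr i)) =
    ⟨dA i, 0, 0, φ (A.a i)⟩ := by
  unfold th
  rw [FreeGroup.lift_apply_of]
  rfl

theorem th_g (w : FW A) : (th L A φ χ dE dA w).g = hat L A φ w := by
  have h : (prQ (p := p) (V := V) (Q := Q)).comp (th L A φ χ dE dA) = hat L A φ := by
    refine FreeGroup.ext_hom _ _ fun x => ?_
    rcases x with v | i
    · rw [MonoidHom.comp_apply, th_inl, hat_inl]
      rfl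
    · rw [MonoidHom.comp_apply, th_inr, hat_inr]
      rfl
  exact DFunLike.congr_fun h w

/-- forget `b` and `z` -/
def rk : Hs p V Q →* Hs p V Q where
  toFun x := ⟨0, x.k, 0, x.g⟩
  map_one' := rfl
  map_mul' x y := by
    apply Hs.ext
    · rw [mul_b]
      simp
    · rw [mul_k, mul_k]
    · rw [mul_z]
      simp
    · rw [mul_g, mul_g]

theorem rk_apply (x : Hs p V Q) : rk x = ⟨0, x.k, 0, x.g⟩ := rfl

theorem rk_th (w : FW A) : rk (th L A φ χ dE dA w) = th L A φ χ 0 0 w := by
  have h : (rk (p := p) (V := V) (Q := Q)).comp (th L A φ χ dE dA) = th L A φ χ 0 0 := by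
    refine FreeGroup.ext_hom _ _ fun x => ?_
    rcases x with v | i
    · rw [MonoidHom.comp_apply, th_inl, th_inl]
      rfl
    · rw [MonoidHom.comp_apply, th_inr, th_inr]
      rfl
  exact DFunLike.congr_fun h w

/-- the virtual crossed homomorphism with values `χ v` at `t_v` and `0` at the `a_i` -/
def k0 (L : LDs D Ω) (A : GS D Ω) (φ : Gal(Ω/K) →* Q) (χ : Pl K → V →+ ZMod p) (w : FW A) :
    V →+ ZMod p := (th L A φ χ 0 0 w).k

theorem th_zero (w : FW A) : th L A φ χ 0 0 w = ⟨0, k0 L A φ χ w, 0, hat L A φ w⟩ := by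
  have h := rk_th (L := L) (A := A) φ χ 0 0 w
  rw [← h, rk_apply]
  apply Hs.ext
  · rfl
  · rfl
  · rfl
  · exact th_g φ χ 0 0 w

theorem th_k (w : FW A) : (th L A φ χ dE dA w).k = k0 L A φ χ w := by
  have h := congrArg Hs.k (rk_th (L := L) (A := A) φ χ dE dA w)
  exact h

/-- the elements with `b` fixed modulo `U` -/
def SF (U : AddSubgroup V) : Subgroup (Hs p V Q) where
  carrier := {x | Fu Q U x.b}
  mul_mem' {x y} hx hy := fx_add hx (fx_smul hy _)
  one_mem' := fx_zero
  inv_mem' {x} hx := fx_neg (fx_smul hx _)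

theorem th_b {U : AddSubgroup V} (hE : ∀ v, Fu Q U (dE v)) (hA : ∀ i, Fu Q U (dA i)) (w : FW A) :
    Fu Q U (th L A φ χ dE dA w).b := by
  have h : (th L A φ χ dE dA).range ≤ SF U := by
    unfold th
    refine FreeGroup.range_lift_le ?_
    rintro _ ⟨x, rfl⟩
    rcases x with v | i
    · exact hE v
    · exact hA i
  exact h ⟨w, rfl⟩

theorem th_crs (w w' : FW A) : (th L A φ χ dE dA (w * w')).b =
    (th L A φ χ dE dA w).b + hat L A φ w • (th L A φ χ dE dA w').b := by
  rw [map_mul, mul_b, th_g]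

end H48.UX
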