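import Pool.Agent.H48.UX.Rid

/-!
# [H48 UX UNA] the virtual crossed homomorphism `k0` is honest if it is orthogonal to the virtual crossed homomorphisms vanishing outside `E`

* `van`: if `∑ χ v (c (X v)) = 0` for all virtual crossed homomorphisms `c : FW A → V` with `c t_v = 0` for `v ∉ E`, then `k0 (X v) = 0` for `v ∈ E` and `k0 (Y i) = 0`.
* `uni_abs`: `crt`: the honesty criterion, `com`, `loc`: the local relations of honest homomorphisms. Then `k0` comes from a crossed homomorphism `kp` of the Galois group with `kp (t_v) = χ v`, `kp = 0` at the `a_i`, `b_i` and at the Frobenius elements of `E`.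
-/

set_option autoImplicit false
set_option linter.dupNamespace false

open scoped NumberField commutatorElement
open IsDedekindDomain
open scoped Classical

noncomputable section

namespace H48.UX

open H63.MA H38.BB H38.BG H57.PC H57.BRA H57.GP H77.WD Pool.Agent.H19.NF
  Pool.Agent.H19.AB Pool.Agent.H19.A2 H77.WE Pool.Agent.H19 H77.S3

variable {K : Type} [Field K] [NumberField K] {Ω : Type} [Field Ω] [Algebra K Ω]
  {p : ℕ} {ζ : K} {V Q : Type} [AddCommGroup V] [Group Q] [DistribMulAction Q V]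
  {D : RD0 K p ζ} {L : LDs D Ω} {A : GS D Ω}

theorem van (hp : p.Prime) {k M : ℕ} {Q' : DP K Ω} {Fr : FR L} {B : SD D Q' A}
    {Z : Finset (Pl K)} (hZ : ∀ v ∈ Z, v ∉ D.S0) {l : List (Pl K)} (hl : l.Nodup)
    (hlZ : ∀ v, v ∈ l ↔ v ∈ Z ∨ v ∈ D.S0) {X : Pl K → FW A} {Y : Fin A.g → FW A}
    (hR : Rel k M L Fr A B Z l X Y) [Finite V] [Finite Q] (hV : ∀ b : V, p • b = 0)
    (hS : Sml p k M (Hs p V Q))
    {φ : Gal(Ω/K) →* Q} (hφ : Unz L Z φ) {E : Finset (Pl K)} (hE : E ⊆ Z)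
    (hφ1 : ∀ v ∈ Z, v ∉ E → φ (L.t v) = 1) {χ : Pl K → V →+ ZMod p}
    (hχ0 : ∀ v, v ∉ Z ∨ v ∈ E → χ v = 0)
    (hχ1 : ∀ v ∈ Z, v ∉ E → tw (φ (Fr.F v)) (χ v) = χ v)
    (hAD : ∀ c : FW A → V, (∀ w w', c (w * w') = c w + hat L A φ w • c w') →
      (∀ v, v ∉ E → c (FreeGroup.of (Sum.inl v)) = 0) → ∑ v ∈ Z, χ v (c (X v)) = 0) :
    (∀ v ∈ E, k0 L A φ χ (X v) = 0) ∧ ∀ i, k0 L A φ χ (Y i) = 0 := by
  have hpf : Fact p.Prime := ⟨hp⟩
  have hp0 : NeZero p := ⟨hp.ne_zero⟩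
  have hprs : Function.Surjective (prQ (p := p) (V := V) (Q := Q)) := fun g =>
    ⟨⟨0, 0, 0, g⟩, rfl⟩
  have hQ : IsPGroup p Q := hS.1.of_surjective _ hprs
  let U : AddSubgroup V :=
    { carrier := {u | ∀ g : Q, (∀ v ∈ E, k0 L A φ χ (X v) (g • u) = 0) ∧
        ∀ i, k0 L A φ χ (Y i) (g • u) = 0}
      add_mem' := by
        intro u u' h h' g
        refine ⟨fun v hv => ?_, fun i => ?_⟩
        · rw [smul_add, map_add, (h g).1 v hv, (h' g).1 v hv, add_zero]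
        · rw [smul_add, map_add, (h g).2 i, (h' g).2 i, add_zero]
      zero_mem' := by
        intro g
        refine ⟨fun v hv => ?_, fun i => ?_⟩
        · rw [smul_zero, map_zero]
        · rw [smul_zero, map_zero]
      neg_mem' := by
        intro u h g
        refine ⟨fun v hv => ?_, fun i => ?_⟩
        · rw [smul_neg, map_neg, (h g).1 v hv, neg_zero]
        · rw [smul_neg, map_neg, (h g).2 i, neg_zero] }
  have hUm : ∀ u : V, u ∈ U ↔ ∀ g : Q, (∀ v ∈ E, k0 L A φ χ (X v) (g • u) = 0) ∧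
      ∀ i, k0 L A φ χ (Y i) (g • u) = 0 := fun u => Iff.rfl
  have hU : ∀ g : Q, ∀ u ∈ U, g • u ∈ U := by
    intro g u hu g'
    rw [← mul_smul]
    exact hu (g' * g)
  have hUE : ∀ v ∈ E, ∀ u ∈ U, k0 L A φ χ (X v) u = 0 := by
    intro v hv u hu
    have h := (hu 1).1 v hv
    rwa [one_smul] at h
  have hUY : ∀ i, ∀ u ∈ U, k0 L A φ χ (Y i) u = 0 := by
    intro i u hu
    have h := (hu 1).2 i
    rwa [one_smul] at h
  have hid : ∀ (dE : Pl K → V) (dA : Fin A.g → V), (∀ v, Fu Q U (dE v)) →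
      (∀ v, v ∉ E → dE v = 0) → (∀ i, Fu Q U (dA i)) →
      ∑ v ∈ E, k0 L A φ χ (X v) (dE v) + ∑ i, k0 L A φ χ (Y i) (dA i) = 0 := by
    intro dE dA h1 h2 h3
    rw [← rel_id hZ hl hlZ hR hS hφ hE hφ1 hχ0 hχ1 hU hUE hUY h1 h2 h3]
    refine hAD (fun w => (th L A φ χ dE dA w).b) (th_crs φ χ dE dA) fun v hv => ?_
    rw [th_inl]
    exact h2 v hv
  have hfix : ∀ b : V, Fu Q U b → (∀ v ∈ E, k0 L A φ χ (X v) b = 0) ∧
      ∀ i, k0 L A φ χ (Y i) b = 0 := by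
    intro b hb
    constructor
    · intro v₀ hv₀
      have h := hid (fun v => if v = v₀ then b else 0) (fun _ => 0) (fun v => by
        by_cases h : v = v₀
        · rw [if_pos h]
          exact hb
        · rw [if_neg h]
          exact fx_zero) (fun v hv => if_neg fun h => hv (by rw [h]; exact hv₀))
        fun _ => fx_zero
      rw [Finset.sum_eq_single v₀ (fun v _ hv => by rw [if_neg hv, map_zero])
        fun h => absurd hv₀ h, if_pos rfl, Finset.sum_eq_zero fun i _ => map_zero _,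
        add_zero] at h
      exact h
    · intro i₀
      have h := hid (fun _ => 0) (fun i => if i = i₀ then b else 0) (fun _ => fx_zero)
        (fun _ _ => rfl) fun i => by
        by_cases h : i = i₀
        · rw [if_pos h]
          exact hb
        · rw [if_neg h]
          exact fx_zero
      rw [Finset.sum_eq_zero fun v _ => map_zero _, zero_add,
        Finset.sum_eq_single i₀ (fun i _ hi => by rw [if_neg hi, map_zero])
        fun h => absurd (Finset.mem_univ _) h, if_pos rfl] at h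
      exact h
  have htop : ∀ b : V, b ∈ U := fix_top hQ hV hU fun b hb => by
    rw [hUm]
    intro g
    exact hfix _ (fx_smul hb g)
  constructor
  · intro v hv
    ext b
    exact hUE v hv b (htop b)
  · intro i
    ext b
    exact hUY i b (htop b)

variable [IsAlgClosure K Ω]

theorem uni_abs (hp : p.Prime) (hζ : IsPrimitiveRoot ζ p) {k M : ℕ}
    {Q' : DP K Ω} {Fr : FR L} {B : SD D Q' A} {Z : Finset (Pl K)} (hZ : ∀ v ∈ Z, v ∉ D.S0)
    {l : List (Pl K)}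
    (hl : l.Nodup) (hlZ : ∀ v, v ∈ l ↔ v ∈ Z ∨ v ∈ D.S0) {X : Pl K → FW A}
    {Y : Fin A.g → FW A} (hR : Rel k M L Fr A B Z l X Y)
    (crt : ∀ (H : Type) [Group H] [Finite H], Sml p k M H → ∀ θ : FW A →* H,
      (∀ v, v ∉ Z ∨ v ∈ D.S0 → θ (FreeGroup.of (Sum.inl v)) = 1) →
      (∀ v ∈ Z, v ∉ D.S0 → ⁅θ (FreeGroup.of (Sum.inl v)), θ (X v)⁆ = 1) →
      (∀ v ∈ D.S0, blk B.pl v (fun i => θ (FreeGroup.of (Sum.inr i))) (fun i => θ (Y i)) = 1) →
      ∃ φ : Gal(Ω/K) →* H, Unz L Z φ ∧ hat L A φ = θ)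
    (com : ∀ v, v ∉ D.S0 → ∀ (H : Type) [Group H] [Finite H], Sml p k M H →
      ∀ φ : Gal(Ω/K) →* H, H38.ML.FT φ → φ (Fr.F v) * φ (L.t v) = φ (L.t v) * φ (Fr.F v))
    (loc : ∀ v ∈ D.S0, ∀ (H : Type) [Group H] [Finite H], Sml p k M H →
      ∀ φ : Gal(Ω/K) →* H, H38.ML.FT φ →
        blk B.pl v (fun i => φ (A.a i)) (fun i => φ (B.b i)) = 1)
    [Finite V] [Finite Q]
    (hV : ∀ b : V, p • b = 0) (hS : Sml p k M (Hs p V Q))
    {φ : Gal(Ω/K) →* Q} (hφ : Unz L Z φ) {E : Finset (Pl K)} (hE : E ⊆ Z)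
    (hφ1 : ∀ v ∈ Z, v ∉ E → φ (L.t v) = 1) {χ : Pl K → V →+ ZMod p}
    (hχ0 : ∀ v, v ∉ Z ∨ v ∈ E → χ v = 0)
    (hχ1 : ∀ v ∈ Z, v ∉ E → tw (φ (Fr.F v)) (χ v) = χ v)
    (hAD : ∀ c : FW A → V, (∀ w w', c (w * w') = c w + hat L A φ w • c w') →
      (∀ v, v ∉ E → c (FreeGroup.of (Sum.inl v)) = 0) → ∑ v ∈ Z, χ v (c (X v)) = 0) :
    ∃ Φ : Gal(Ω/K) →* Hs p V Q, Unz L Z Φ ∧ hat L A Φ = th L A φ χ 0 0 ∧
      (∀ σ, (Φ σ).b = 0 ∧ (Φ σ).z = 0 ∧ (Φ σ).g = φ σ) ∧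
      (∀ v, (Φ (L.t v)).k = χ v) ∧ (∀ i, (Φ (A.a i)).k = 0) ∧ (∀ i, (Φ (B.b i)).k = 0) ∧
      ∀ v ∈ E, (Φ (Fr.F v)).k = 0 := by
  have hp0 : NeZero p := ⟨hp.ne_zero⟩
  have hprs : Function.Surjective (prQ (p := p) (V := V) (Q := Q)) := fun g =>
    ⟨⟨0, 0, 0, g⟩, rfl⟩
  have hQ : Sml p k M Q := sml_surj hS prQ hprs
  have hW : Wds k M L Fr A B Z X Y := hR.2.2.1
  have hXg : ∀ v ∈ Z, hat L A φ (X v) = φ (Fr.F v) := (hW Q hQ φ hφ).1
  have hYg : ∀ i, hat L A φ (Y i) = φ (B.b i) := (hW Q hQ φ hφ).2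
  obtain ⟨hv1, hv2⟩ := van hp hZ hl hlZ hR hV hS hφ hE hφ1 hχ0 hχ1 hAD
  set θ : FW A →* Hs p V Q := th L A φ χ 0 0 with hθ
  have hone : ∀ v, v ∉ Z ∨ v ∈ D.S0 → θ (FreeGroup.of (Sum.inl v)) = 1 := by
    intro v hv
    have hvZ : v ∉ Z := by
      rcases hv with h | h
      · exact h
      · exact fun h' => hZ v h' h
    have h1 : φ (L.t v) = 1 := by
      by_cases hv0 : v ∈ D.S0
      · rw [t_S0 L hv0, map_one]
      · exact hφ.2 v hv0 hvZ
    rw [hθ, th_inl, h1, hχ0 v (Or.inl hvZ)]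
    rfl
  -- the homomorphism of `Q`
  let i : Q →* Hs p V Q :=
    { toFun := fun g => ⟨0, 0, 0, g⟩
      map_one' := rfl
      map_mul' := by
        intro g h
        apply Hs.ext
        · rw [mul_b]
          simp
        · rw [mul_k]
          simp [tw_zero]
        · rw [mul_z]
          simp
        · rw [mul_g] }
  obtain ⟨Φ, h1, h2⟩ := crt (Hs p V Q) hS θ hone
    (fun v hv hv0 => by
      by_cases hvE : v ∈ E
      · have h3 : θ (FreeGroup.of (Sum.inl v)) = i (φ (L.t v)) := by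
          rw [hθ, th_inl, hχ0 v (Or.inr hvE)]
          rfl
        have h4 : θ (X v) = i (φ (Fr.F v)) := by
          rw [hθ, th_zero, hv1 v hvE, hXg v hv]
          rfl
        rw [h3, h4, ← map_commutatorElement, commutatorElement_eq_one_iff_mul_comm.2
          (com v hv0 Q hQ φ hφ.1).symm, map_one]
      · have h3 : θ (FreeGroup.of (Sum.inl v)) = ⟨0, χ v, 0, 1⟩ := by
          rw [hθ, th_inl, hφ1 v hv hvE]
          rfl
        rw [h3, com_t _ _ (by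
          rw [hθ, th_g, hXg v hv]
          exact hχ1 v hv hvE), hθ, th_zero, map_zero]
        rfl)
    (fun v hv => by
      have h3 : ∀ j, θ (FreeGroup.of (Sum.inr j)) = i (φ (A.a j)) := by
        intro j
        rw [hθ, th_inr]
        rfl
      have h4 : ∀ j, θ (Y j) = i (φ (B.b j)) := by
        intro j
        rw [hθ, th_zero, hv2 j, hYg j]
        rfl
      have h5 := loc v hv Q hQ φ hφ.1
      have h6 := congrArg i h5
      rw [map_blk, map_one] at h6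
      simp only [h3, h4]
      exact h6)
  have hrg : ∀ σ, ∃ w, Φ σ = θ w := by
    intro σ
    have h3 := fraU hp hζ L A Z Φ h1 (hS.1.to_subgroup _)
    have h4 : Φ σ ∈ (OnZ A Z).map (hat L A Φ) := by
      rw [h3]
      exact ⟨σ, rfl⟩
    obtain ⟨w, -, hw⟩ := h4
    exact ⟨w, by rw [← hw, h2]⟩
  have hg : prQ.comp Φ = φ := by
    refine hon_eqU hp hζ L A Z _ φ (h1.comp _) hφ (hQ.1.to_subgroup _) (hQ.1.to_subgroup _)
      (fun v _ => ?_) fun j => ?_
    · rw [MonoidHom.comp_apply, ← hat_inl L A Φ v, h2, hθ, th_inl]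
      rfl
    · rw [MonoidHom.comp_apply, ← hat_inr L A Φ j, h2, hθ, th_inr]
      rfl
  have hWΦ := hW (Hs p V Q) hS Φ h1
  refine ⟨Φ, h1, h2, fun σ => ?_, fun v => ?_, fun j => ?_, fun j => ?_, fun v hv => ?_⟩
  · obtain ⟨w, hw⟩ := hrg σ
    refine ⟨?_, ?_, DFunLike.congr_fun hg σ⟩
    · rw [hw, hθ, th_zero]
    · rw [hw, hθ, th_zero]
  · rw [← hat_inl L A Φ v, h2, hθ, th_inl]
  · rw [← hat_inr L A Φ j, h2, hθ, th_inr]
  · rw [← hWΦ.2 j, h2, hθ, th_zero]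
    exact hv2 j
  · rw [← hWΦ.1 v (hE hv), h2, hθ, th_zero]
    exact hv1 v hv

end H48.UX
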