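import Pool.Agent.H48.UX.Uni
import Pool.Agent.H77.INP.Df

/-!
# [H48 UX UNF] the honest crossed homomorphism of the characters, in the frame `Fx`
-/

set_option autoImplicit false
set_option linter.dupNamespace false

open scoped NumberField commutatorElement
open IsDedekindDomain
open scoped Classical

noncomputable section

namespace H48.UX

open H63.MA H38.BB H38.BG H57.PC H57.BRA H57.GP H77.WD Pool.Agent.H19.NF
  Pool.Agent.H19.AB Pool.Agent.H19.A2 H77.WE Pool.Agent.H19 H77.S3 H35.UB H70.UX H77.INP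

variable {K : Type} [Field K] [NumberField K] {Ω : Type} [Field Ω] [Algebra K Ω]
  {p : ℕ} {ζ : K} {D : RD0 K p ζ} {L : LDs D Ω} {A : GS D Ω} [IsAlgClosure K Ω]

/-- the crossed homomorphism of the characters of a box is honest -/
theorem uni_fx (hp : p.Prime) (hζ : IsPrimitiveRoot ζ p) {k j : ℕ} {z : K} {Mg Cg C' : ℕ}
    {C₁ Y : ℝ} {Fr : FR L} {Q : DP K Ω} {B : SD D Q A} {Zw : Finset (Pl K)} {l : List (Pl K)}
    {W : Pl K → FW A} {Yw : Fin A.g → FW A} (hx : Fx k j z Mg Cg C' C₁ Y Fr B Zw l W Yw)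
    {P : Type} [Group P] [Finite P] {κ c : ℕ} (hPκ : ∀ x : P, x ^ p ^ κ = 1) (hκ : κ + 2 ≤ k)
    (hPc : Nat.card P ≤ c) (hM : c * (p ^ c * (p * c)) ≤ p ^ k) {N : Subgroup P} [N.Normal]
    {n : ℕ} (hn : Nk N (n + 1) = ⊥) (hg : N = Subgroup.closure {x | x ∈ N ∧ x ^ p = 1})
    {E : Finset (Pl K)} (X : Bs A P N n) (hE : E ⊆ X.s) (hs : X.s ⊆ Zw)
    (hφ : HonE L E X.s X.φ) (hφ' : hat L A X.φ = (QuotientGroup.mk' N).comp (ev A X.g X.α))
    (hch : X.ch Fr E) (had : X.ad W E) :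
    ∃ kp : Gal(Ω/K) → P → ZMod p, Kp L Fr A B N n X.s E X.φ X.χ kp :=
  uni hp hζ hx.out hx.nd hx.ml hx.rel hx.crt hx.com hx.loc hPκ hκ hPc hM hn hg X hE hs hφ hφ' hch
    had

/-- a bound for `k` -/
theorem uni_k {p : ℕ} (hp : p.Prime) (c : ℕ) {k : ℕ} (hk : 3 * c + 1 ≤ k) :
    c * (p ^ c * (p * c)) ≤ p ^ k := by
  have h1 : c ≤ p ^ c := (Nat.lt_pow_self hp.one_lt).le
  calc c * (p ^ c * (p * c)) ≤ p ^ c * (p ^ c * (p * p ^ c)) := by gcongr
    _ = p ^ (3 * c + 1) := by ring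
    _ ≤ p ^ k := Nat.pow_le_pow_right hp.pos hk

end H48.UX
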