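import Pool.Agent.H48.UX.Una
import Pool.Agent.H48.UX.Lay
import Pool.Agent.H70.UX.Box

/-!
# [H48 UX UNI] the characters of the last layer at the fixed primes give an honest crossed homomorphism

`Kp`: the properties of the crossed homomorphism `kp : Γ → Hom(Nk N n, ZMod p)` over `φ : Γ → P ⧸ N` (functions `P → ZMod p`, `0` outside `Nk N n`): locally constant, additive,
`kp (στ) u = kp σ u + kp τ (x⁻¹ u x)` (`x` over `φ σ`), values `χ v` at `t_v` for `v ∈ s`, `0` at the other `t_v`, at the `a_i`, at the `b_i` and at the Frobenius elements of `E`.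
* `uni`: for the data `X : Bs A P N n` of a box, the conditions `X.ch` and (AD) `X.ad` imply that `kp` exists.
-/

set_option autoImplicit false
set_option linter.dupNamespace false

open scoped NumberField commutatorElement
open IsDedekindDomain
open scoped Classical

noncomputable section

namespace H48.UX

open H63.MA H38.BB H38.BG H57.PC H57.BRA H57.GP H77.WD Pool.Agent.H19.NF
  Pool.Agent.H19.AB Pool.Agent.H19.A2 H77.WE Pool.Agent.H19 H77.S3 H35.UB H70.UX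

variable {K : Type} [Field K] [NumberField K] {Ω : Type} [Field Ω] [Algebra K Ω]
  {p : ℕ} {ζ : K} {D : RD0 K p ζ} {L : LDs D Ω} {A : GS D Ω}

/-- the honest crossed homomorphism with values in the dual of the last layer -/
structure Kp (L : LDs D Ω) (Fr : FR L) (A : GS D Ω) {Q' : DP K Ω} (B : SD D Q' A) {P : Type}
    [Group P] (N : Subgroup P) [N.Normal] (n : ℕ) (s E : Finset (Pl K))
    (φ : Gal(Ω/K) →* P ⧸ N) (χ : Pl K → P → ZMod p) (kp : Gal(Ω/K) → P → ZMod p) : Prop where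
  ft : ∃ F : IntermediateField K Ω, FiniteDimensional K F ∧ ∀ σ, ∀ τ ∈ F.fixingSubgroup,
    kp (σ * τ) = kp σ
  out : ∀ σ, ∀ u, u ∉ Nk N n → kp σ u = 0
  add : ∀ σ, ∀ u ∈ Nk N n, ∀ u' ∈ Nk N n, kp σ (u * u') = kp σ u + kp σ u'
  crs : ∀ σ τ, ∀ x : P, (x : P ⧸ N) = φ σ → ∀ u ∈ Nk N n,
    kp (σ * τ) u = kp σ u + kp τ (x⁻¹ * u * x)
  t : ∀ v ∈ s, ∀ u ∈ Nk N n, kp (L.t v) u = χ v u
  t0 : ∀ v, v ∉ s → ∀ u, kp (L.t v) u = 0
  a : ∀ i u, kp (A.a i) u = 0
  b : ∀ i u, kp (B.b i) u = 0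
  f : ∀ v ∈ E, ∀ u, kp (Fr.F v) u = 0

section one

variable {P : Type} [Group P] {N : Subgroup P} [N.Normal] {n : ℕ}

/-- virtual crossed homomorphisms and homomorphisms to `P` -/
theorem ev_crs (hn : Nk N (n + 1) = ⊥) (g : Pl K → P) (α : Fin A.g → P) (φ : Gal(Ω/K) →* P ⧸ N)
    (hφ : hat L A φ = (QuotientGroup.mk' N).comp (ev A g α)) (c : FW A → LL N n hn)
    (hc : ∀ w w', c (w * w') = c w + hat L A φ w • c w') (w : FW A) :
    ev A (fun v => ll (c (FreeGroup.of (Sum.inl v))) * g v)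
      (fun i => ll (c (FreeGroup.of (Sum.inr i))) * α i) w = ll (c w) * ev A g α w := by
  have hw : ∀ w, hat L A φ w = (ev A g α w : P ⧸ N) := fun w => DFunLike.congr_fun hφ w
  let f : FW A →* P := MonoidHom.mk' (fun w => ll (c w) * ev A g α w) (by
    intro w w'
    rw [hc, hw, ll_add, ll_smul, map_mul]
    simp only [mul_assoc, inv_mul_cancel_left])
  have h : ev A (fun v => ll (c (FreeGroup.of (Sum.inl v))) * g v)
      (fun i => ll (c (FreeGroup.of (Sum.inr i))) * α i) = f := by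
    refine FreeGroup.ext_hom _ _ fun x => ?_
    unfold H35.UB.ev
    rw [FreeGroup.lift_apply_of]
    rcases x with v | i
    · show _ = ll (c (FreeGroup.of (Sum.inl v))) *
        FreeGroup.lift (Sum.elim g α) (FreeGroup.of (Sum.inl v))
      rw [FreeGroup.lift_apply_of]
      rfl
    · show _ = ll (c (FreeGroup.of (Sum.inr i))) *
        FreeGroup.lift (Sum.elim g α) (FreeGroup.of (Sum.inr i))
      rw [FreeGroup.lift_apply_of]
      rfl
  exact DFunLike.congr_fun h w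

theorem sml_hsl (hp : p.Prime) {k M κ c : ℕ} [Finite P] (hPκ : ∀ x : P, x ^ p ^ κ = 1)
    (hκ : κ + 2 ≤ k) (hPc : Nat.card P ≤ c) (hM : c * (p ^ c * (p * c)) ≤ M)
    (hn : Nk N (n + 1) = ⊥) (hg : N = Subgroup.closure {x | x ∈ N ∧ x ^ p = 1}) :
    Sml p k M (Hs p (LL N n hn) (P ⧸ N)) := by
  have hp0 : NeZero p := ⟨hp.ne_zero⟩
  have h1 : ∀ x : Hs p (LL N n hn) (P ⧸ N), x ^ p ^ (κ + 2) = 1 :=
    pow_hs hp (ll_exp hg) fun q => by
      obtain ⟨x, rfl⟩ := QuotientGroup.mk_surjective q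
      rw [← QuotientGroup.mk_pow, hPκ]
      rfl
  refine ⟨fun x => ⟨κ + 2, h1 x⟩, ?_, fun x => ?_⟩
  · refine (card_hs p _ _).trans (le_trans ?_ hM)
    have h2 : Nat.card (LL N n hn) ≤ c := ll_card.trans hPc
    have h3 : Nat.card (P ⧸ N) ≤ c :=
      (Nat.card_le_card_of_surjective _ (QuotientGroup.mk'_surjective N)).trans hPc
    exact Nat.mul_le_mul h2 (Nat.mul_le_mul (Nat.pow_le_pow_right hp.pos h2)
      (Nat.mul_le_mul le_rfl h3))
  · obtain ⟨i, hi⟩ := pow_dvd_pow p hκ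
    rw [hi, pow_mul, h1, one_pow]

end one

variable [IsAlgClosure K Ω]

theorem uni (hp : p.Prime) (hζ : IsPrimitiveRoot ζ p) {k M : ℕ}
    {Q' : DP K Ω} {Fr : FR L} {B : SD D Q' A} {Z : Finset (Pl K)} (hZ : ∀ v ∈ Z, v ∉ D.S0)
    {l : List (Pl K)}
    (hl : l.Nodup) (hlZ : ∀ v, v ∈ l ↔ v ∈ Z ∨ v ∈ D.S0) {W : Pl K → FW A}
    {Yw : Fin A.g → FW A} (hR : Rel k M L Fr A B Z l W Yw)
    (crt : ∀ (H : Type) [Group H] [Finite H], Sml p k M H → ∀ θ : FW A →* H,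
      (∀ v, v ∉ Z ∨ v ∈ D.S0 → θ (FreeGroup.of (Sum.inl v)) = 1) →
      (∀ v ∈ Z, v ∉ D.S0 → ⁅θ (FreeGroup.of (Sum.inl v)), θ (W v)⁆ = 1) →
      (∀ v ∈ D.S0, blk B.pl v (fun i => θ (FreeGroup.of (Sum.inr i))) (fun i => θ (Yw i)) = 1) →
      ∃ φ : Gal(Ω/K) →* H, Unz L Z φ ∧ hat L A φ = θ)
    (com : ∀ v, v ∉ D.S0 → ∀ (H : Type) [Group H] [Finite H], Sml p k M H →
      ∀ φ : Gal(Ω/K) →* H, H38.ML.FT φ → φ (Fr.F v) * φ (L.t v) = φ (L.t v) * φ (Fr.F v))
    (loc : ∀ v ∈ D.S0, ∀ (H : Type) [Group H] [Finite H], Sml p k M H →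
      ∀ φ : Gal(Ω/K) →* H, H38.ML.FT φ →
        blk B.pl v (fun i => φ (A.a i)) (fun i => φ (B.b i)) = 1)
    {P : Type} [Group P] [Finite P]
    {κ c : ℕ} (hPκ : ∀ x : P, x ^ p ^ κ = 1) (hκ : κ + 2 ≤ k) (hPc : Nat.card P ≤ c)
    (hM : c * (p ^ c * (p * c)) ≤ M) {N : Subgroup P} [N.Normal] {n : ℕ}
    (hn : Nk N (n + 1) = ⊥) (hg : N = Subgroup.closure {x | x ∈ N ∧ x ^ p = 1})
    {E : Finset (Pl K)} (X : Bs A P N n) (hE : E ⊆ X.s) (hs : X.s ⊆ Z)
    (hφ : HonE L E X.s X.φ) (hφ' : hat L A X.φ = (QuotientGroup.mk' N).comp (ev A X.g X.α))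
    (hch : X.ch Fr E) (had : X.ad W E) :
    ∃ kp : Gal(Ω/K) → P → ZMod p, Kp L Fr A B N n X.s E X.φ X.χ kp := by
  have hp0 : NeZero p := ⟨hp.ne_zero⟩
  have hS := sml_hsl (N := N) (n := n) hp hPκ hκ hPc hM hn hg
  have hprs : Function.Surjective (prQ (p := p) (V := LL N n hn) (Q := P ⧸ N)) := fun g =>
    ⟨⟨0, 0, 0, g⟩, rfl⟩
  have hQ : Sml p k M (P ⧸ N) := sml_surj hS prQ hprs
  have hsE : E ∪ X.s = X.s := Finset.union_eq_right.2 hE
  have hU : Unz L X.s X.φ := by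
    have h := hφ.unz
    rwa [hsE] at h
  have hUZ : Unz L Z X.φ := ⟨hU.1, fun v hv hz => hU.2 v hv fun h => hz (hs h)⟩
  have hXg : ∀ v ∈ Z, hat L A X.φ (W v) = X.φ (Fr.F v) := (hR.2.2.1 _ hQ X.φ hUZ).1
  have hhat : ∀ w, hat L A X.φ w = (ev A X.g X.α w : P ⧸ N) := fun w => DFunLike.congr_fun hφ' w
  have hev : ∀ v, ev A X.g X.α (FreeGroup.of (Sum.inl v)) = X.g v := by
    intro v
    unfold H35.UB.ev
    rw [FreeGroup.lift_apply_of]
    rfl
  -- the characters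
  let χ' : Pl K → LL N n hn →+ ZMod p := fun v =>
    if hv : v ∈ X.s then
      { toFun := fun u => X.χ v (ll u)
        map_zero' := by
          have h := hch.add v hv 1 (Subgroup.one_mem _) 1 (Subgroup.one_mem _)
          rw [mul_one] at h
          rw [ll_zero]
          linear_combination -h
        map_add' := fun u u' => by
          rw [ll_add]
          exact hch.add v hv _ (ll_mem u) _ (ll_mem u') }
    else 0
  have hχs : ∀ v ∈ X.s, ∀ u : LL N n hn, χ' v u = X.χ v (ll u) := by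
    intro v hv u
    show (dite _ _ _ : LL N n hn →+ ZMod p) u = _
    rw [dif_pos hv]
    rfl
  have hχn : ∀ v, v ∉ X.s → χ' v = 0 := fun v hv => dif_neg hv
  have hinv : ∀ v ∈ X.s, ∀ x : P, (x : P ⧸ N) = X.φ (Fr.F v) → ∀ u ∈ Nk N n,
      X.χ v (x⁻¹ * u * x) = X.χ v u := by
    intro v hv x hx u hu
    have h1 : x⁻¹ * u * x ∈ Nk N n := by
      have h2 := (nk_normal N n).conj_mem u hu x⁻¹
      rwa [inv_inv] at h2
    have h3 := hch.inv v hv x hx _ h1
    rw [← h3]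
    congr 1
    group
  have hχ0 : ∀ v, v ∉ Z ∨ v ∈ E → χ' v = 0 := by
    intro v hv
    rcases hv with hv | hv
    · exact hχn v fun h => hv (hs h)
    · ext u
      rw [hχs v (hE hv), hch.exc v hv _ (ll_mem u)]
      rfl
  have hχ1 : ∀ v ∈ Z, v ∉ E → tw (X.φ (Fr.F v)) (χ' v) = χ' v := by
    intro v _ _
    by_cases hvs : v ∈ X.s
    · ext u
      obtain ⟨x, hx⟩ := QuotientGroup.mk_surjective (X.φ (Fr.F v))
      rw [tw_apply, hχs v hvs, hχs v hvs, ← hx, ← QuotientGroup.mk_inv, ll_smul, inv_inv]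
      exact hinv v hvs x hx _ (ll_mem u)
    · rw [hχn v hvs]
      rfl
  have hφ1 : ∀ v ∈ Z, v ∉ E → X.φ (L.t v) = 1 := by
    intro v hv hvE
    by_cases hvs : v ∈ X.s
    · rw [← hat_inl L A X.φ v, hhat, hev]
      exact (QuotientGroup.eq_one_iff _).2 (hch.mem v hvs hvE)
    · exact hU.2 v (hZ v hv) hvs
  -- the orthogonality
  have hAD : ∀ c : FW A → LL N n hn, (∀ w w', c (w * w') = c w + hat L A X.φ w • c w') →
      (∀ v, v ∉ E → c (FreeGroup.of (Sum.inl v)) = 0) → ∑ v ∈ Z, χ' v (c (W v)) = 0 := by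
    intro c hc hc0
    have h1 := had (fun v => ll (c (FreeGroup.of (Sum.inl v))) * X.g v)
      (fun i => ll (c (FreeGroup.of (Sum.inr i))) * X.α i)
      (fun v hv => by rw [hc0 v hv, ll_zero, one_mul])
      (fun v => by
        rw [mul_inv_cancel_right]
        exact ll_mem _)
      (fun i => by
        rw [mul_inv_cancel_right]
        exact ll_mem _)
    rw [← h1, ← Finset.sum_subset hs fun v _ hv => by
      rw [hχn v hv]
      rfl]
    refine Finset.sum_congr rfl fun v hv => ?_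
    rw [hχs v hv, ev_crs hn X.g X.α X.φ hφ' c hc, ← mul_assoc]
    refine (hinv v hv _ ?_ _ (ll_mem _)).symm
    rw [← hhat, hXg v (hs hv)]
  obtain ⟨Φ, h1, -, h3, h4, h5, h6, h7⟩ := uni_abs hp hζ hZ hl hlZ hR crt com loc
    (ll_exp hg) hS hUZ (hE.trans hs) hφ1 hχ0 hχ1 hAD
  have hk : ∀ σ (u : P) (hu : u ∈ Nk N n), (if h : u ∈ Nk N n then (Φ σ).k (lm u h) else 0) =
      (Φ σ).k (lm u hu) := fun σ u hu => dif_pos hu
  refine ⟨fun σ u => if h : u ∈ Nk N n then (Φ σ).k (lm u h) else 0, ?_, ?_, ?_, ?_, ?_, ?_,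
    ?_, ?_, ?_⟩
  · obtain ⟨F, hFf, hFk⟩ := h1.1
    refine ⟨F, hFf, fun σ τ hτ => ?_⟩
    funext u
    rw [map_mul, MonoidHom.mem_ker.1 (hFk hτ), mul_one]
  · intro σ u hu
    exact dif_neg hu
  · intro σ u hu u' hu'
    show (dite _ _ _ : ZMod p) = (dite _ _ _ : ZMod p) + (dite _ _ _ : ZMod p)
    rw [hk σ u hu, hk σ u' hu', hk σ (u * u') (Subgroup.mul_mem _ hu hu'), lm_mul hu hu', map_add]
  · intro σ τ x hx u hu
    have hu' : x⁻¹ * u * x ∈ Nk N n := by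
      have h2 := (nk_normal N n).conj_mem u hu x⁻¹
      rwa [inv_inv] at h2
    show (dite _ _ _ : ZMod p) = (dite _ _ _ : ZMod p) + (dite _ _ _ : ZMod p)
    rw [hk σ u hu, hk τ _ hu', hk (σ * τ) u hu, map_mul, mul_k, AddMonoidHom.add_apply, tw_apply,
      (h3 σ).2.2, ← hx, ← QuotientGroup.mk_inv]
    congr 2
    apply ll_inj
    rw [ll_smul, ll_lm, ll_lm, inv_inv]
  · intro v hv u hu
    show (dite _ _ _ : ZMod p) = _
    rw [hk _ u hu, h4, hχs v hv, ll_lm]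
  · intro v hv u
    show (dite _ _ _ : ZMod p) = _
    by_cases hu : u ∈ Nk N n
    · rw [hk _ u hu, h4, hχn v hv]
      rfl
    · exact dif_neg hu
  · intro i u
    show (dite _ _ _ : ZMod p) = _
    by_cases hu : u ∈ Nk N n
    · rw [hk _ u hu, h5]
      rfl
    · exact dif_neg hu
  · intro i u
    show (dite _ _ _ : ZMod p) = _
    by_cases hu : u ∈ Nk N n
    · rw [hk _ u hu, h6]
      rfl
    · exact dif_neg hu
  · intro v hv u
    show (dite _ _ _ : ZMod p) = _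
    by_cases hu : u ∈ Nk N n
    · rw [hk _ u hu, h7 v hv]
      rfl
    · exact dif_neg hu

end H48.UX
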